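import Mathlib

set_option autoImplicit false

namespace Pool.Agent.Results.MP_f00a0c_co.FiveQuarters

open Finset Filter Topology

abbrev V := Fin 5

/-- the 5-cycle `0 1 2 3 4` with the chord `0 2` -/
def G : SimpleGraph V := SimpleGraph.fromRel fun i j => j = i + 1 ∨ (i = 0 ∧ j = 2)

/-- the token graph of the list of vertices on which the tokens were placed -/
def tok (σ : List V) : SimpleGraph (Fin σ.length) :=
  SimpleGraph.fromRel fun i j => σ[i] = σ[j] ∨ G.Adj σ[i] σ[j]

/-- the colour that the strategy `A` gives to token `i`: it sees only the tokens `0, …, i` -/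
def col (A : List V → ℕ) (σ : List V) (i : Fin σ.length) : ℕ := A (σ.take (i.1 + 1))

/-- against every legal play of width `w`, `A` colours properly with at most `m` colours -/
def Good (w m : ℕ) (A : List V → ℕ) : Prop :=
  ∀ σ : List V, (tok σ).Colorable w →
    (∀ i j, (tok σ).Adj i j → col A σ i ≠ col A σ j) ∧ (univ.image (col A σ)).card ≤ m

noncomputable def f (w : ℕ) : ℕ := sInf {m | ∃ A, Good w m A}

instance : DecidableRel G.Adj := fun i j => by unfold G; infer_instance

/-! the upper bound -/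

def mem (v : V) (k : Fin 9) : Prop :=
  k.1 = v.1 ∨ (k = 5 ∧ (v = 0 ∨ v = 3)) ∨ (k = 6 ∧ (v = 3 ∨ v = 1)) ∨ (k = 7 ∧ (v = 1 ∨ v = 4)) ∨
    (k = 8 ∧ (v = 4 ∨ v = 2))

instance (v : V) (k : Fin 9) : Decidable (mem v k) := by unfold mem; infer_instance

lemma mem_adj : ∀ (u v : V) (k : Fin 9), mem u k → mem v k → ¬ G.Adj u v := by decide +kernel

def sing (v : V) : Fin 9 := ⟨v.1, by omega⟩

def dec (T : ℕ) (n : Fin 9 → ℕ) (v : V) : Option (Fin 9 × Fin 9) :=
  if v = 0 then (if 0 < n 3 then some (3, 5) else none)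
  else if v = 2 then (if 0 < n 4 then some (4, 8) else none)
  else if v = 3 then (if 0 < n 0 then some (0, 5) else
    if 0 < n 1 ∧ n 6 + 1 ≤ T + (n 5 + n 3 + 2 * n 6 + n 7 + n 1 + 1 - 4 * T) then some (1, 6)
    else none)
  else if v = 4 then (if 0 < n 2 then some (2, 8) else
    if 0 < n 1 ∧ n 7 + 1 ≤ T + (n 8 + n 4 + 2 * n 7 + n 6 + n 1 + 1 - 4 * T) then some (1, 7)
    else none)
  else if 0 < n 3 ∧ n 6 + 1 ≤ T + (n 5 + n 3 + 2 * n 6 + n 7 + n 1 + 1 - 4 * T) then some (3, 6)
  else if 0 < n 4 ∧ n 7 + 1 ≤ T + (n 8 + n 4 + 2 * n 7 + n 6 + n 1 + 1 - 4 * T) then some (4, 7)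
  else none

def Num (T : ℕ) (n : Fin 9 → ℕ) (x : V → ℕ) (N : ℕ) : Prop :=
  x 0 = n 0 + n 5 ∧ x 3 = n 3 + n 5 + n 6 ∧ x 1 = n 1 + n 6 + n 7 ∧ x 4 = n 4 + n 7 + n 8 ∧
  x 2 = n 2 + n 8 ∧ N = n 0 + n 1 + n 2 + n 3 + n 4 + n 5 + n 6 + n 7 + n 8 ∧
  (n 0 = 0 ∨ n 3 = 0) ∧ (n 2 = 0 ∨ n 4 = 0) ∧ n 6 ≤ T + (x 3 + x 1 - 4 * T) ∧
  n 7 ≤ T + (x 4 + x 1 - 4 * T) ∧ (n 3 = 0 ∨ n 1 = 0 ∨ (T ≤ n 6 ∧ x 3 + x 1 ≤ n 6 + 3 * T)) ∧
  (n 4 = 0 ∨ n 1 = 0 ∨ (T ≤ n 7 ∧ (n 4 ≤ T ∨ x 4 + x 1 ≤ n 7 + 3 * T)))

lemma num_none (T : ℕ) (n n' : Fin 9 → ℕ) (x x' : V → ℕ) (N : ℕ) (v : V) (h : Num T n x N)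
    (hd : dec T n v = none) (hn : ∀ k, n' k = n k + if sing v = k then 1 else 0)
    (hx : ∀ u, x' u = x u + if v = u then 1 else 0) : Num T n' x' (N + 1) := by
  simp only [Num, hn, hx] at h ⊢
  fin_cases v <;> simp [dec, sing, Fin.ext_iff] at hd ⊢ <;> (try split_ifs at hd) <;>
    (try simp at hd) <;> omega

lemma num_some (T : ℕ) (n n' : Fin 9 → ℕ) (x x' : V → ℕ) (N : ℕ) (v : V) (k k' : Fin 9)
    (h : Num T n x N) (hd : dec T n v = some (k, k'))
    (hn : ∀ l, n' l = n l - (if k = l then 1 else 0) + if k' = l then 1 else 0)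
    (hx : ∀ u, x' u = x u + if v = u then 1 else 0) :
    Num T n' x' N ∧ 0 < n k ∧ mem v k' ∧ ∀ u, mem u k → u ≠ v ∧ mem u k' := by
  simp only [Num, hn, hx] at h ⊢
  fin_cases v <;> simp only [dec] at hd <;> split_ifs at hd <;>
    first
      | contradiction
      | (obtain ⟨rfl, rfl⟩ := Prod.mk.inj (Option.some.inj hd)
         refine ⟨?_, by omega, by decide, by decide⟩
         simp [Fin.ext_iff]
         omega)

lemma num_le (T : ℕ) (n : Fin 9 → ℕ) (x : V → ℕ) (N : ℕ) (h : Num T n x N)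
    (h1 : x 0 + x 1 + x 2 ≤ 4 * T) (h2 : x 0 + x 4 ≤ 4 * T) (h3 : x 3 + x 4 ≤ 4 * T)
    (h4 : x 2 + x 3 ≤ 4 * T) : N ≤ 5 * T := by
  unfold Num at h
  omega

def step (T : ℕ) (s : List (Fin 9) × ℕ) (v : V) : List (Fin 9) × ℕ :=
  match dec T (fun k => s.1.count k) v with
  | none => (s.1 ++ [sing v], s.1.length)
  | some p => (s.1.set (s.1.idxOf p.1) p.2, s.1.idxOf p.1)

def st (T : ℕ) (σ : List V) : List (Fin 9) × ℕ := σ.foldl (step T) ([], 0)

def Inv (T : ℕ) (σ : List V) : Prop :=
  Num T (fun k => (st T σ).1.count k) (fun v => σ.count v) (st T σ).1.length ∧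
  (∀ i < σ.length, (st T (σ.take (i + 1))).2 < (st T σ).1.length ∧
    mem (σ.getD i 0) ((st T σ).1.getD (st T (σ.take (i + 1))).2 0)) ∧
  ∀ i j, i < j → j < σ.length → (st T (σ.take (i + 1))).2 = (st T (σ.take (j + 1))).2 →
    σ.getD i 0 ≠ σ.getD j 0

lemma inv (T : ℕ) (σ : List V) : Inv T σ := by
  induction σ using List.reverseRecOn with
  | nil => exact ⟨by simp [Num, st], by simp, by simp⟩
  | append_singleton σ v ih =>
    obtain ⟨h1, h2, h3⟩ := ih
    have e : st T (σ ++ [v]) = step T (st T σ) v := by simp [st]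
    have t1 : ∀ i < σ.length, (σ ++ [v]).take (i + 1) = σ.take (i + 1) := fun i hi =>
      List.take_append_of_le_length hi
    have t2 : (σ ++ [v]).take (σ.length + 1) = σ ++ [v] := List.take_of_length_le (by simp)
    have g1 : ∀ i < σ.length, (σ ++ [v]).getD i 0 = σ.getD i 0 := fun i hi =>
      List.getD_append _ _ _ _ hi
    have g2 : (σ ++ [v]).getD σ.length 0 = v := by simp
    have hx : ∀ u, (σ ++ [v]).count u = σ.count u + if v = u then 1 else 0 := fun u => by
      simp [List.count_singleton]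
    have key : Num T (fun k => (st T (σ ++ [v])).1.count k) (fun u => (σ ++ [v]).count u)
        (st T (σ ++ [v])).1.length ∧ (st T (σ ++ [v])).2 < (st T (σ ++ [v])).1.length ∧
        mem v ((st T (σ ++ [v])).1.getD (st T (σ ++ [v])).2 0) ∧
        ∀ c < (st T σ).1.length, ∀ u, mem u ((st T σ).1.getD c 0) →
          c < (st T (σ ++ [v])).1.length ∧ mem u ((st T (σ ++ [v])).1.getD c 0) ∧
          (c = (st T (σ ++ [v])).2 → u ≠ v) := by
      rw [e]
      generalize st T σ = s at h1
      obtain ⟨L, c0⟩ := s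
      unfold step
      dsimp only at h1 ⊢
      rcases hd : dec T (fun k => L.count k) v with _ | ⟨k, k'⟩
      · refine ⟨?_, by simp, by simp [mem, sing], fun c hc u hu => ⟨by simp; omega, ?_, ?_⟩⟩
        · simp only [List.length_append, List.length_singleton]
          exact num_none T _ _ _ _ _ v h1 hd (fun k => by simp [List.count_singleton]) hx
        · simp only [List.getD_append _ _ _ _ hc]
          exact hu
        · intro e
          exact absurd e hc.ne
      · have hk := (num_some T _ _ _ _ _ v k k' h1 hd (fun _ => rfl) hx).2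
        have hm : k ∈ L := List.count_pos_iff.1 hk.1
        have hi : L.idxOf k < L.length := List.idxOf_lt_length_of_mem hm
        have hg : L[L.idxOf k] = k := List.getElem_idxOf hi
        refine ⟨?_, by simpa, by simpa [hi] using hk.2.1, fun c hc u hu => ⟨by simpa, ?_, ?_⟩⟩
        · simp only [List.length_set]
          exact (num_some T _ _ _ _ _ v k k' h1 hd (fun l => by
            simp only [List.count_set hi, hg, beq_iff_eq]) hx).1
        · by_cases ec : c = L.idxOf k
          · subst ec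
            simp only [List.getD_eq_getElem _ _ hi, hg] at hu
            simpa [hi] using (hk.2.2 u hu).2
          · simpa [List.getD_eq_getElem?_getD, List.getElem?_set_ne (Ne.symm ec)] using hu
        · intro ec
          simp only at ec
          subst ec
          simp only [List.getD_eq_getElem _ _ hi, hg] at hu
          exact (hk.2.2 u hu).1
    obtain ⟨k1, k2, k3, k4⟩ := key
    refine ⟨k1, fun i hi => ?_, fun i j hij hj => ?_⟩
    · rcases Nat.lt_succ_iff_lt_or_eq.1 (show i < σ.length + 1 by simpa using hi) with hi | rfl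
      · rw [t1 i hi, g1 i hi]
        exact ⟨(k4 _ (h2 i hi).1 _ (h2 i hi).2).1, (k4 _ (h2 i hi).1 _ (h2 i hi).2).2.1⟩
      · rw [t2, g2]
        exact ⟨k2, k3⟩
    · rcases Nat.lt_succ_iff_lt_or_eq.1 (show j < σ.length + 1 by simpa using hj) with hj | rfl
      · rw [t1 i (by omega), g1 i (by omega), t1 j hj, g1 j hj]
        exact h3 i j hij hj
      · rw [t1 i hij, g1 i hij, t2, g2]
        exact (k4 _ (h2 i hij).1 _ (h2 i hij).2).2.2

lemma clique (σ : List V) (w : ℕ) (h : (tok σ).Colorable w) (K : Finset V)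
    (hK : ∀ u ∈ K, ∀ v ∈ K, u = v ∨ G.Adj u v) : ∑ v ∈ K, σ.count v ≤ w := by
  have h1 : (tok σ).IsClique (univ.filter fun i : Fin σ.length => σ[i] ∈ K : Finset _) := by
    intro i hi j hj hij
    simp only [coe_filter, mem_univ, true_and, Set.mem_ofPred_eq] at hi hj
    exact ⟨hij, Or.inl (hK _ hi _ hj)⟩
  refine le_trans (le_of_eq ?_) (h1.card_le_of_colorable h)
  rw [card_eq_sum_card_fiberwise (f := fun i : Fin σ.length => σ[i]) (t := K)
    (fun i hi => by simpa using hi)]
  refine sum_congr rfl fun v hv => ?_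
  rw [filter_filter]
  refine (Fin.card_filter_univ_eq_vector_get_eq_count v ⟨σ, rfl⟩).symm.trans ?_
  congr 1
  ext i
  simp only [mem_filter, mem_univ, true_and]
  exact ⟨fun e => ⟨(show σ[i] = v from e) ▸ hv, e⟩, fun e => e.2⟩

lemma upper (w T : ℕ) (hw : w ≤ 4 * T) : Good w (5 * T) fun σ => (st T σ).2 := by
  intro σ h
  obtain ⟨h1, h2, h3⟩ := inv T σ
  have g : ∀ i : Fin σ.length, σ.getD i 0 = σ[i] := fun i => List.getD_eq_getElem _ _ i.2
  constructor
  · have : ∀ i j : Fin σ.length, i < j → (tok σ).Adj i j →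
        (st T (σ.take (i + 1))).2 ≠ (st T (σ.take (j + 1))).2 := by
      intro i j hij ha e
      have n1 := h3 i j hij j.2 e
      have m1 := (h2 i i.2).2
      have m2 := (h2 j j.2).2
      rw [g] at m1 m2
      rw [g, g] at n1
      rw [e] at m1
      rcases ha.2 with (a | a) | a | a
      · exact n1 a
      · exact mem_adj _ _ _ m1 m2 a
      · exact n1 a.symm
      · exact mem_adj _ _ _ m2 m1 a
    intro i j ha
    rcases lt_or_gt_of_ne ha.ne with hij | hij
    · exact this i j hij ha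
    · exact (this j i hij ha.symm).symm
  · have c1 := clique σ w h {0, 1, 2} (by decide +kernel)
    have c2 := clique σ w h {0, 4} (by decide +kernel)
    have c3 := clique σ w h {3, 4} (by decide +kernel)
    have c4 := clique σ w h {2, 3} (by decide +kernel)
    simp at c1 c2 c3 c4
    refine le_trans (card_le_card (t := range (st T σ).1.length) fun c hc => ?_) ?_
    · obtain ⟨i, -, rfl⟩ := mem_image.1 hc
      exact mem_range.2 (h2 i i.2).1
    · rw [card_range]
      exact num_le T _ _ _ h1 (by omega) (by omega) (by omega) (by omega)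

/-! the lower bound -/

lemma play {w m : ℕ} {A : List V → ℕ} (h : Good w m A) (g : ℕ → V) (n : ℕ) (φ : ℕ → ℕ)
    (h1 : ∀ i < n, φ i < w)
    (h2 : ∀ i < n, ∀ j < n, i ≠ j → (g i = g j ∨ G.Adj (g i) (g j)) → φ i ≠ φ j) :
    (∀ i < n, ∀ j < n, i ≠ j → (g i = g j ∨ G.Adj (g i) (g j)) →
      A ((List.range (i + 1)).map g) ≠ A ((List.range (j + 1)).map g)) ∧
    ((range n).image fun i => A ((List.range (i + 1)).map g)).card ≤ m := by
  have hl : ((List.range n).map g).length = n := by simp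
  have hc : ∀ i : Fin ((List.range n).map g).length, col A _ i = A ((List.range (i + 1)).map g) :=
    fun i => by
      rw [col, ← List.map_take, List.take_range, min_eq_left (by have := i.2; omega)]
  obtain ⟨k1, k2⟩ := h ((List.range n).map g) ⟨SimpleGraph.Coloring.mk
    (fun i => ⟨φ i, h1 i (by have := i.2; omega)⟩) (by
      intro i j ha e
      have hi : i.1 < n := by have := i.2; omega
      have hj : j.1 < n := by have := j.2; omega
      have hij : i.1 ≠ j.1 := fun e => ha.ne (Fin.ext e)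
      have e' : φ i = φ j := congrArg Fin.val e
      rcases ha.2 with a | a
      · exact h2 i hi j hj hij (by simpa using a) e'
      · exact h2 j hj i hi hij.symm (by simpa using a) e'.symm)⟩
  refine ⟨fun i hi j hj hij a => ?_, le_trans (card_le_card fun c hc' => ?_) k2⟩
  · have := k1 ⟨i, by omega⟩ ⟨j, by omega⟩ ⟨fun e => hij (congrArg Fin.val e), Or.inl (by simpa)⟩
    rwa [hc, hc] at this
  · obtain ⟨i, hi, rfl⟩ := mem_image.1 hc'
    exact mem_image.2 ⟨⟨i, by simpa using hi⟩, mem_univ _, hc _⟩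

def g1 (k i : ℕ) : V := if i < k then 3 else if i < 2 * k then 1 else if i < 3 * k then 0 else 4
def g2 (k i : ℕ) : V := if i < k then 3 else if i < 2 * k then 1 else 2

lemma lower {w m : ℕ} {A : List V → ℕ} (h : Good w m A) (k : ℕ) (hk : 2 * k ≤ w) :
    5 * k ≤ 2 * m := by
  obtain ⟨a1, a2⟩ := play h (g1 k) (4 * k) (fun i => if i < 2 * k then i else i - 2 * k)
    (fun i hi => by split_ifs <;> omega) (fun i hi j hj hij a => by
      unfold g1 at a
      split_ifs at a ⊢ <;> first | omega | exact absurd a (by decide))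
  obtain ⟨b1, b2⟩ := play h (g2 k) (3 * k) (fun i => if i < k then i else i - k)
    (fun i hi => by split_ifs <;> omega) (fun i hi j hj hij a => by
      unfold g2 at a
      split_ifs at a ⊢ <;> first | omega | exact absurd a (by decide))
  have e : ∀ i < 2 * k, (List.range (i + 1)).map (g2 k) = (List.range (i + 1)).map (g1 k) :=
    fun i hi => List.map_congr_left fun j hj => by
      have := List.mem_range.1 hj
      unfold g1 g2
      split_ifs <;> first | rfl | omega
  set c1 := fun i => A ((List.range (i + 1)).map (g1 k)) with hc1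
  set c2 := fun i => A ((List.range (i + 1)).map (g2 k)) with hc2
  have e' : ∀ i < 2 * k, c2 i = c1 i := fun i hi => congrArg A (e i hi)
  have a1' : ∀ i < 4 * k, ∀ j < 4 * k, c1 i = c1 j →
      (g1 k i = g1 k j ∨ G.Adj (g1 k i) (g1 k j)) → i = j := fun i hi j hj ec a => by
    by_contra hij
    exact a1 i hi j hj hij a ec
  have b1' : ∀ i < 3 * k, ∀ j < 3 * k, c2 i = c2 j →
      (g2 k i = g2 k j ∨ G.Adj (g2 k i) (g2 k j)) → i = j := fun i hi j hj ec a => by
    by_contra hij
    exact b1 i hi j hj hij a ec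
  have cd : ∀ p q, q ≤ 4 * k → (∀ i j, p ≤ i → i < q → p ≤ j → j < q →
      g1 k i = g1 k j ∨ G.Adj (g1 k i) (g1 k j)) → ((Ico p q).image c1).card = q - p := by
    intro p q hq H
    rw [card_image_of_injOn, Nat.card_Ico]
    intro i hi j hj ec
    simp only [coe_Ico, Set.mem_Ico] at hi hj
    exact a1' i (by omega) j (by omega) ec (H i j hi.1 hi.2 hj.1 hj.2)
  have cB := cd 0 k (by omega) fun i j _ _ _ _ => by
    unfold g1; split_ifs <;> first | omega | decide
  have cC := cd k (2 * k) (by omega) fun i j _ _ _ _ => by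
    unfold g1; split_ifs <;> first | omega | decide
  have cD := cd (2 * k) (4 * k) (by omega) fun i j _ _ _ _ => by
    unfold g1; split_ifs <;> first | omega | decide
  have cE : ((Ico (2 * k) (3 * k)).image c2).card = k := by
    rw [card_image_of_injOn, Nat.card_Ico]
    · omega
    intro i hi j hj ec
    simp only [coe_Ico, Set.mem_Ico] at hi hj
    refine b1' i (by omega) j (by omega) ec ?_
    unfold g2; split_ifs <;> first | omega | decide
  have u := card_union_add_card_inter ((Ico 0 k).image c1) ((Ico k (2 * k)).image c1)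
  have d1 : Disjoint ((Ico 0 k).image c1 ∩ (Ico k (2 * k)).image c1)
      ((Ico (2 * k) (4 * k)).image c1) := by
    simp only [disjoint_left, mem_inter, mem_image, mem_Ico]
    rintro _ ⟨⟨i, hi, rfl⟩, j, hj, ej⟩ ⟨l, hl, el⟩
    by_cases h3 : l < 3 * k
    · have := a1' l (by omega) j (by omega) (el.trans ej.symm) (by
        unfold g1; split_ifs <;> first | omega | decide)
      omega
    · have := a1' l (by omega) i (by omega) el (by
        unfold g1; split_ifs <;> first | omega | decide)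
      omega
  have d2 : Disjoint ((Ico 0 k).image c1 ∪ (Ico k (2 * k)).image c1)
      ((Ico (2 * k) (3 * k)).image c2) := by
    simp only [disjoint_left, mem_union, mem_image, mem_Ico]
    rintro _ (⟨i, hi, rfl⟩ | ⟨i, hi, rfl⟩) ⟨l, hl, el⟩ <;>
    · have := b1' l (by omega) i (by omega) (el.trans (e' i (by omega)).symm) (by
        unfold g2; split_ifs <;> first | omega | decide)
      omega
  have s1 := card_le_card (show ((Ico 0 k).image c1 ∩ (Ico k (2 * k)).image c1) ∪
      ((Ico (2 * k) (4 * k)).image c1) ⊆ (range (4 * k)).image c1 by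
    simp only [subset_iff, mem_union, mem_inter, mem_image, mem_Ico, mem_range]
    rintro _ (⟨⟨i, hi, rfl⟩, -⟩ | ⟨i, hi, rfl⟩) <;> exact ⟨i, by omega, rfl⟩)
  have s2 := card_le_card (show ((Ico 0 k).image c1 ∪ (Ico k (2 * k)).image c1) ∪
      ((Ico (2 * k) (3 * k)).image c2) ⊆ (range (3 * k)).image c2 by
    simp only [subset_iff, mem_union, mem_image, mem_Ico, mem_range]
    rintro _ ((⟨i, hi, rfl⟩ | ⟨i, hi, rfl⟩) | ⟨i, hi, rfl⟩)
    · exact ⟨i, by omega, e' i (by omega)⟩
    · exact ⟨i, by omega, e' i (by omega)⟩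
    · exact ⟨i, by omega, rfl⟩)
  rw [card_union_of_disjoint d1] at s1
  rw [card_union_of_disjoint d2] at s2
  omega

theorem result : (∀ w, (∃ A, Good w (f w) A) ∧ 5 * (w / 2) ≤ 2 * f w ∧ f w ≤ 5 * ((w + 3) / 4)) ∧
    Tendsto (fun w : ℕ => (f w : ℝ) / w) atTop (𝓝 (5 / 4)) := by
  have main : ∀ w, (∃ A, Good w (f w) A) ∧ 5 * (w / 2) ≤ 2 * f w ∧ f w ≤ 5 * ((w + 3) / 4) := by
    intro w
    have h : 5 * ((w + 3) / 4) ∈ {m | ∃ A, Good w m A} := ⟨_, upper w _ (by omega)⟩
    obtain ⟨A, hA⟩ := Nat.sInf_mem ⟨_, h⟩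
    exact ⟨⟨A, hA⟩, lower hA _ (by omega), Nat.sInf_le h⟩
  refine ⟨main, ?_⟩
  have t : ∀ c : ℝ, Tendsto (fun w : ℕ => 5 / 4 + c / (w : ℝ)) atTop (𝓝 (5 / 4)) := fun c => by
    simpa using (tendsto_const_div_atTop_nhds_zero_nat c).const_add (5 / 4)
  refine tendsto_of_tendsto_of_tendsto_of_le_of_le' (t (-4)) (t 4) ?_ ?_ <;>
    filter_upwards [eventually_gt_atTop 0] with w hw
  · have h : 5 * w ≤ 4 * f w + 16 := by have := (main w).2.1; omega
    have h' : 5 * (w : ℝ) ≤ 4 * f w + 16 := by exact_mod_cast h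
    have : (0 : ℝ) < w := by exact_mod_cast hw
    rw [le_div_iff₀ this]
    field_simp
    linarith
  · have h : 4 * f w ≤ 5 * w + 16 := by have := (main w).2.2; omega
    have h' : 4 * (f w : ℝ) ≤ 5 * w + 16 := by exact_mod_cast h
    have : (0 : ℝ) < w := by exact_mod_cast hw
    rw [div_le_iff₀ this]
    field_simp
    linarith

end Pool.Agent.Results.MP_f00a0c_co.FiveQuarters
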